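import Pool.Agent.Helper74.FP.Goals
import Pool.Agent.Helper52.Wq2.Minor

/-!
# Project FP, packet F4: minors of free products
-/

set_option autoImplicit false

namespace Pool.Agent.Helper64.FP

open Pool.Agent.Helper52.Wq2 Pool.Agent.Helper61.NW Pool.Agent.Helper74.FP Monoid Monoid.CoprodI

universe u

/-- a star of connected sets -/
theorem conn_star {V : Type u} {G : SimpleGraph V} {ι : Type} (p : V) (Q : ι → Set V)
    (h1 : ∀ i, Conn G (Q i)) (h2 : ∀ i, p ∈ Q i) : Conn G {x | x = p ∨ ∃ i, x ∈ Q i} := by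
  refine ⟨⟨p, Or.inl rfl⟩, ?_⟩
  intro A hA hne hcl
  have key : ∀ i, ∀ a ∈ A, a ∈ Q i → Q i ⊆ A := by
    intro i a ha hai
    have h3 := (h1 i).2 (A ∩ Q i) (fun x hx => hx.2) ⟨a, ha, hai⟩ (by
      rintro x ⟨hx, hxi⟩ y hy hxy
      exact ⟨hcl x hx y (Or.inr ⟨i, hy⟩) hxy, hy⟩)
    exact fun x hx => (h3 hx).1
  have hp : p ∈ A := by
    obtain ⟨a, ha⟩ := hne
    rcases hA ha with rfl | ⟨i, hi⟩
    · exact ha
    · exact key i a ha hi (h2 i)
  rintro x (rfl | ⟨i, hi⟩)
  · exact hp
  · exact key i p hp (h2 i) hi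

section Words

variable {ι : Type} {A B : ι → Type u} [∀ i, Group (A i)] [∀ i, Group (B i)]

/-- the image of a word -/
def fw (r : ∀ i, A i → B i) (hr : ∀ i a, r i a = 1 → a = 1) (w : Word A) : Word B where
  toList := w.toList.map (fun l => ⟨l.1, r l.1 l.2⟩)
  ne_one := by
    intro l hl
    rw [List.mem_map] at hl
    obtain ⟨l', hl', rfl⟩ := hl
    exact fun h => w.ne_one l' hl' (hr _ _ h)
  chain_ne := by
    rw [List.isChain_map]
    exact w.chain_ne

theorem fw_fst (r : ∀ i, A i → B i) (hr : ∀ i a, r i a = 1 → a = 1) (w : Word A) :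
    (fw r hr w).fstIdx = w.fstIdx := by
  unfold Word.fstIdx fw
  simp only [List.head?_map, Option.map_map]
  rfl

theorem fw_inj (r : ∀ i, A i → B i) (hr : ∀ i a, r i a = 1 → a = 1)
    (hinj : ∀ i, Function.Injective (r i)) : Function.Injective (fw r hr) := by
  intro w w' h
  have h1 : w.toList.map (fun l => (⟨l.1, r l.1 l.2⟩ : Σ i, B i)) =
      w'.toList.map (fun l => (⟨l.1, r l.1 l.2⟩ : Σ i, B i)) := congrArg Word.toList h
  apply Word.ext
  refine List.map_injective_iff.2 ?_ h1
  rintro ⟨i, a⟩ ⟨j, b⟩ hab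
  have h2 : i = j := congrArg Sigma.fst hab
  subst h2
  have h3 : r i a = r i b := eq_of_heq (Sigma.mk.inj hab).2
  rw [hinj i h3]

variable [DecidableEq ι] [∀ i, DecidableEq (A i)] [∀ i, DecidableEq (B i)]

theorem fw_rcons (r : ∀ i, A i → B i) (hr : ∀ i a, r i a = 1 → a = 1) (h1 : ∀ i, r i 1 = 1)
    {i : ι} (p : Word.Pair A i) (h : (fw r hr p.tail).fstIdx ≠ some i) :
    fw r hr (Word.rcons p) = Word.rcons ⟨r i p.head, fw r hr p.tail, h⟩ := by
  by_cases hp : p.head = 1
  · have h2 : r i p.head = 1 := by rw [hp]; exact h1 i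
    rw [Word.rcons, dif_pos hp, Word.rcons, dif_pos h2]
  · have h2 : r i p.head ≠ 1 := fun h' => hp (hr i _ h')
    rw [Word.rcons, dif_neg hp, Word.rcons, dif_neg h2]
    apply Word.ext
    rfl

end Words

theorem adj_mul {ι : Type} {B : ι → Type u} [∀ i, Group (B i)] {T : ∀ i, Set (B i)}
    (hT : ∀ i, IsGen (T i)) (i : ι) {b b' : B i} (h : (cayL (T i)).Adj b b') (y : CoprodI B) :
    (cayL (US T)).Adj (of b * y) (of b' * y) := by
  unfold cayL at h ⊢
  rw [SimpleGraph.fromRel_adj] at h ⊢
  obtain ⟨h1, h2⟩ := h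
  refine ⟨?_, ?_⟩
  · intro h3
    exact h1 (CoprodI.of_injective i (mul_right_cancel h3))
  · rcases h2 with h2 | h2
    · left
      refine ⟨i, _, h2, ?_⟩
      rw [map_mul, map_inv]
      group
    · right
      refine ⟨i, _, h2, ?_⟩
      rw [map_mul, map_inv]
      group

theorem f4 : F4Stmt.{u} := by
  classical
  intro ι A B _ _ S T V hS hT hV h1V
  have hne : ∀ i a, (V i a).Nonempty := fun i a => ((hV i).1 a).1
  have hdis : ∀ i a a' b, b ∈ V i a → b ∈ V i a' → a = a' := fun i => (hV i).2.1
  let r : ∀ i, A i → B i := fun i a => if a = 1 then 1 else (hne i a).choose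
  have hrV : ∀ i a, r i a ∈ V i a := by
    intro i a
    change (if a = 1 then 1 else (hne i a).choose) ∈ V i a
    split_ifs with h
    · rw [h]; exact h1V i
    · exact (hne i a).choose_spec
  have hr1 : ∀ i, r i 1 = 1 := by
    intro i
    change (if (1 : A i) = 1 then (1 : B i) else (hne i 1).choose) = 1
    rw [if_pos rfl]
  have hr : ∀ i a, r i a = 1 → a = 1 := by
    intro i a h
    have h2 := hrV i a
    rw [h] at h2
    exact hdis i a 1 1 h2 (h1V i)
  have hrinj : ∀ i, Function.Injective (r i) := by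
    intro i a a' h
    have h2 := hrV i a
    rw [h] at h2
    exact hdis i a a' _ h2 (hrV i a')
  have hfst : ∀ (w : Word A) (i : ι), (fw r hr (Word.equivPair i w).tail).fstIdx ≠ some i := by
    intro w i
    rw [fw_fst]
    exact (Word.equivPair i w).fstIdx_ne
  have hrc : ∀ (w : Word A) (i : ι), Word.rcons (Word.equivPair i w) = w := fun w i =>
    (Word.equivPair i).symm_apply_apply w
  let part : Word A → ι → Set (Word B) := fun w i =>
    {x | ∃ b ∈ V i (Word.equivPair i w).head,
      x = Word.rcons ⟨b, fw r hr (Word.equivPair i w).tail, hfst w i⟩}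
  have hfp : ∀ w i, fw r hr w ∈ part w i := by
    intro w i
    refine ⟨r i (Word.equivPair i w).head, hrV i _, ?_⟩
    have h := fw_rcons r hr hr1 (Word.equivPair i w) (hfst w i)
    rw [hrc] at h
    exact h
  have hsame : ∀ i w v x, x ∈ part w i → x ∈ part v i → w = v := by
    rintro i w v x ⟨b, hb, rfl⟩ ⟨c, hc, h⟩
    have h2 := Word.rcons_inj h
    have h3 : b = c := congrArg Word.Pair.head h2
    have h4 : fw r hr (Word.equivPair i w).tail = fw r hr (Word.equivPair i v).tail :=
      congrArg Word.Pair.tail h2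
    have h5 := fw_inj r hr hrinj h4
    subst h3
    have h6 := hdis i _ _ b hb hc
    apply (Word.equivPair i).injective
    exact Word.Pair.ext h6 h5
  have hone : ∀ i w, (1 : B i) ∈ V i (Word.equivPair i w).head →
      Word.rcons ⟨(1 : B i), fw r hr (Word.equivPair i w).tail, hfst w i⟩ = fw r hr w := by
    intro i w h
    have h2 : (Word.equivPair i w).head = 1 := hdis i _ _ 1 h (h1V i)
    have h3 : (Word.equivPair i w).tail = w := by
      have h4 := hrc w i
      rw [Word.rcons, dif_pos h2] at h4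
      exact h4
    have h5 : Word.rcons ⟨(1 : B i), fw r hr (Word.equivPair i w).tail, hfst w i⟩ =
        fw r hr (Word.equivPair i w).tail := by
      rw [Word.rcons, dif_pos rfl]
    rw [h5, h3]
  have hdiff : ∀ i j w v x, i ≠ j → x ∈ part w i → x ∈ part v j → w = v := by
    rintro i j w v x hij ⟨b, hb, hxb⟩ ⟨c, hc, hxc⟩
    by_cases hb1 : b = 1
    · subst hb1
      rw [hone i w hb] at hxb
      refine hsame j w v x ?_ ⟨c, hc, hxc⟩
      rw [hxb]
      exact hfp w j
    by_cases hc1 : c = 1
    · subst hc1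
      rw [hone j v hc] at hxc
      refine hsame i w v x ⟨b, hb, hxb⟩ ?_
      rw [hxc]
      exact hfp v i
    exfalso
    have h2 : x.fstIdx = some i := by
      rw [hxb, Word.rcons, dif_neg hb1, Word.fstIdx_cons]
    have h3 : x.fstIdx = some j := by
      rw [hxc, Word.rcons, dif_neg hc1, Word.fstIdx_cons]
    rw [h2] at h3
    exact hij (Option.some.inj h3)
  have hall : ∀ i j w v x, x ∈ part w i → x ∈ part v j → w = v := by
    intro i j w v x h h'
    by_cases hij : i = j
    · subst hij
      exact hsame i w v x h h'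
    · exact hdiff i j w v x hij h h'
  -- the pieces in the group
  let Q : Word A → ι → Set (CoprodI B) := fun w i =>
    (fun b => of b * (fw r hr (Word.equivPair i w).tail).prod) '' V i (Word.equivPair i w).head
  have hQ : ∀ w i x, x ∈ Q w i → ∃ y ∈ part w i, x = y.prod := by
    rintro w i x ⟨b, hb, rfl⟩
    refine ⟨_, ⟨b, hb, rfl⟩, ?_⟩
    rw [Word.prod_rcons]
  have hpQ : ∀ w i, (fw r hr w).prod ∈ Q w i := by
    intro w i
    obtain ⟨b, hb, h⟩ := hfp w i
    refine ⟨b, hb, ?_⟩
    rw [h, Word.prod_rcons]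
  have hQc : ∀ w i, Conn (cayL (US T)) (Q w i) := by
    intro w i
    refine Conn.image ((hV i).1 _) _ ?_
    intro b _ b' _ hbb
    exact Or.inr (adj_mul hT i hbb _)
  have hprod : Function.Injective (Word.prod : Word B → CoprodI B) := Word.equiv.symm.injective
  refine ⟨fun g => {x | x = (fw r hr (Word.equiv g)).prod ∨ ∃ i, x ∈ Q (Word.equiv g) i}, ?_, ?_, ?_⟩
  · intro g
    exact conn_star _ _ (hQc _) (hpQ _)
  · intro g g' x hx hx'
    apply Word.equiv.injective
    rcases hx with hx | ⟨i, hi⟩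
    · rcases hx' with hx' | ⟨j, hj⟩
      · rw [hx] at hx'
        exact fw_inj r hr hrinj (hprod hx')
      · obtain ⟨y, hy, hxy⟩ := hQ _ _ _ hj
        rw [hx] at hxy
        have h2 := hprod hxy
        rw [← h2] at hy
        exact hsame j _ _ _ (hfp _ j) hy
    · obtain ⟨y, hy, hxy⟩ := hQ _ _ _ hi
      rcases hx' with hx' | ⟨j, hj⟩
      · rw [hx'] at hxy
        have h2 := hprod hxy
        rw [← h2] at hy
        exact hsame i _ _ _ hy (hfp _ i)
      · obtain ⟨y', hy', hxy'⟩ := hQ _ _ _ hj
        rw [hxy] at hxy'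
        have h2 := hprod hxy'
        rw [← h2] at hy'
        exact hall i j _ _ _ hy hy'
  · have key : ∀ g g' : CoprodI A, g' * g⁻¹ ∈ US S →
        ∃ i, ∃ x ∈ Q (Word.equiv g) i, ∃ y ∈ Q (Word.equiv g') i, (cayL (US T)).Adj x y := by
      rintro g g' ⟨i, s, hs, h⟩
      have hg : g' = of s * g := by rw [← h, inv_mul_cancel_right]
      have he : Word.equiv g' = of s • Word.equiv g := by
        rw [hg]
        change (of s * g) • (Word.empty : Word A) = of s • (g • (Word.empty : Word A))
        rw [mul_smul]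
      set w := Word.equiv g with hw
      have hp := Word.equivPair_smul_same s w
      rw [← he] at hp
      have hhead : (Word.equivPair i (Word.equiv g')).head = s * (Word.equivPair i w).head := by
        rw [hp]
      have htail : (Word.equivPair i (Word.equiv g')).tail = (Word.equivPair i w).tail := by
        rw [hp]
      have hadj : (cayL (S i)).Adj (Word.equivPair i w).head (s * (Word.equivPair i w).head) := by
        unfold cayL
        rw [SimpleGraph.fromRel_adj]
        refine ⟨?_, Or.inl ?_⟩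
        · intro h2
          have h3 : s = 1 := by
            have h4 : 1 * (Word.equivPair i w).head = s * (Word.equivPair i w).head := by
              rw [one_mul]; exact h2
            exact (mul_right_cancel h4).symm
          rw [h3] at hs
          exact (hS i).2.2 hs
        · rw [mul_inv_cancel_right]
          exact hs
      obtain ⟨b, hb, b', hb', hbb⟩ := (hV i).2.2 _ _ hadj
      refine ⟨i, _, ⟨b, hb, rfl⟩, _, ⟨b', ?_, rfl⟩, ?_⟩
      · rw [hhead]; exact hb'
      · change (cayL (US T)).Adj (of b * (fw r hr (Word.equivPair i w).tail).prod)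
          (of b' * (fw r hr (Word.equivPair i (Word.equiv g')).tail).prod)
        rw [htail]
        exact adj_mul hT i hbb _
    intro g g' hgg
    unfold cayL at hgg
    rw [SimpleGraph.fromRel_adj] at hgg
    rcases hgg.2 with h | h
    · obtain ⟨i, x, hx, y, hy, hxy⟩ := key g g' h
      exact ⟨x, Or.inr ⟨i, hx⟩, y, Or.inr ⟨i, hy⟩, hxy⟩
    · obtain ⟨i, x, hx, y, hy, hxy⟩ := key g' g h
      exact ⟨y, Or.inr ⟨i, hy⟩, x, Or.inr ⟨i, hx⟩, hxy.symm⟩

end Pool.Agent.Helper64.FP
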